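import Pool.Agent.Helper87.HQ.St

/-!
# Module C8 of project HQ: positive functions of an eigenspace are proportional
-/

set_option autoImplicit false

namespace Pool.Agent.Helper25.HQ

open Pool.Agent.Helper87.HQ
open Set Real Filter Topology

open Classical in
/-- the point of the graph with the coordinate `x` on the edge `e` -/
private noncomputable def pnt (G : MetricGraph) (e : G.E) (x : ℝ) : G.Pt :=
  if h : x ∈ Ioo (0 : ℝ) (G.len e) then Sum.inr ⟨e, ⟨x, h⟩⟩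
    else if x ≤ 0 then Sum.inl (G.src e) else Sum.inl (G.tgt e)

private theorem onEdge_eq (G : MetricGraph) (F : G.Pt → ℝ) (e : G.E) (x : ℝ) :
    G.onEdge F e x = F (pnt G e x) := by
  unfold MetricGraph.onEdge pnt
  split_ifs <;> rfl

private theorem cont_edge (G : MetricGraph) (α : G.V → ℝ) (μ : ℝ) (F : G.Pt → ℝ)
    (hF : F ∈ G.eigenspace α μ) (e : G.E) :
    ContinuousOn (fun x => F (pnt G e x)) (Icc (0 : ℝ) (G.len e)) := by
  obtain ⟨D, h, -⟩ := hF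
  have h1 : ContinuousOn (G.onEdge F e) (Icc (0 : ℝ) (G.len e)) :=
    fun x hx => (h e x hx).1.continuousWithinAt
  refine h1.congr fun x _ => ?_
  rw [onEdge_eq]

private theorem exists_min_edge (G : MetricGraph) (α : G.V → ℝ) (μ : ℝ) (F H : G.Pt → ℝ)
    (hF : F ∈ G.eigenspace α μ) (hH : H ∈ G.eigenspace α μ) (hpos : ∀ y, 0 < H y) (e : G.E) :
    ∃ P : G.Pt, ∀ x ∈ Icc (0 : ℝ) (G.len e), F P / H P ≤ F (pnt G e x) / H (pnt G e x) := by
  have hc : ContinuousOn (fun x => F (pnt G e x) / H (pnt G e x)) (Icc (0 : ℝ) (G.len e)) :=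
    (cont_edge G α μ F hF e).div (cont_edge G α μ H hH e) fun x _ => (hpos _).ne'
  obtain ⟨x0, -, h0⟩ := isCompact_Icc.exists_isMinOn ⟨0, by
    exact ⟨le_rfl, (G.len_pos e).le⟩⟩ hc
  exact ⟨pnt G e x0, fun x hx => h0 hx⟩

private theorem exists_min (G : MetricGraph) (hG : Nonempty G.V) (α : G.V → ℝ) (μ : ℝ)
    (F H : G.Pt → ℝ) (hF : F ∈ G.eigenspace α μ) (hH : H ∈ G.eigenspace α μ)
    (hpos : ∀ y, 0 < H y) : ∃ P : G.Pt, ∀ y, F P / H P ≤ F y / H y := by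
  choose pe hpe using exists_min_edge G α μ F H hF hH hpos
  let c : G.V ⊕ G.E → G.Pt := Sum.elim Sum.inl pe
  obtain ⟨v0⟩ := hG
  have : Nonempty (G.V ⊕ G.E) := ⟨Sum.inl v0⟩
  obtain ⟨s, hs⟩ := Finite.exists_min (fun s : G.V ⊕ G.E => F (c s) / H (c s))
  refine ⟨c s, fun y => ?_⟩
  rcases y with v | ⟨e, x, hx⟩
  · exact hs (Sum.inl v)
  · refine (hs (Sum.inr e)).trans ?_
    have h1 := hpe e x ⟨hx.1.le, hx.2.le⟩
    have h2 : pnt G e x = Sum.inr ⟨e, ⟨x, hx⟩⟩ := by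
      unfold pnt
      rw [dif_pos hx]
    rw [h2] at h1
    exact h1

/-- Module C8. -/
theorem hC8 : StC8 := by
  intro h7 G α κ hG hκ H₁ h₁ H₂ h₂ _ hp2
  obtain ⟨P, hP⟩ := exists_min G hG.1 α _ H₁ H₂ h₁ h₂ hp2
  refine ⟨H₁ P / H₂ P, ?_⟩
  set t := H₁ P / H₂ P with ht
  have hmem : H₁ - t • H₂ ∈ G.eigenspace α (-κ ^ 2) :=
    Submodule.sub_mem _ h₁ (Submodule.smul_mem _ _ h₂)
  have hz := h7 G α κ hG hκ (H₁ - t • H₂) hmem (fun y => ?_) ⟨P, ?_⟩
  · exact sub_eq_zero.mp hz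
  · have h3 := (le_div_iff₀ (hp2 y)).mp (hP y)
    simp only [Pi.sub_apply, Pi.smul_apply, smul_eq_mul]
    linarith
  · simp only [Pi.sub_apply, Pi.smul_apply, smul_eq_mul]
    rw [ht, div_mul_cancel₀ _ (hp2 P).ne', sub_self]

end Pool.Agent.Helper25.HQ
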